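import Pool.Agent.H474.RZ.Stm
import Pool.Graph.R_seed8.Helper242.KK.MeanSq

/-!
# The fourth moment of a block of the zeta function
-/

set_option autoImplicit false

open Complex MeasureTheory Filter Topology
open Pool.Agent.H474.RZ

namespace Pool.Agent.H549.RZ.M4

/-! ### Gaussian sums -/

theorem sum_gauss {c : ℝ} (hc : 0 < c) (N : ℕ) :
    ∑ i ∈ Finset.range N, Real.exp (-c * (i : ℝ) ^ 2) ≤ 1 + Real.sqrt (Real.pi / c) / 2 := by
  rcases Nat.eq_zero_or_pos N with rfl | hN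
  · simp only [Finset.range_zero, Finset.sum_empty]
    positivity
  obtain ⟨n, rfl⟩ : ∃ n, N = n + 1 := ⟨N - 1, by omega⟩
  rw [Finset.sum_range_succ']
  have h1 : AntitoneOn (fun x : ℝ => Real.exp (-c * x ^ 2)) (Set.Icc (0 : ℝ) (0 + (n : ℕ))) := by
    intro x hx y _ hxy
    apply Real.exp_le_exp.2
    have : x ^ 2 ≤ y ^ 2 := pow_le_pow_left₀ hx.1 hxy 2
    nlinarith
  have h2 := h1.sum_le_integral
  have h3 : ∫ x in (0 : ℝ)..0 + (n : ℕ), Real.exp (-c * x ^ 2) ≤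
      Real.sqrt (Real.pi / c) / 2 := by
    rw [← integral_gaussian_Ioi, intervalIntegral.integral_of_le (by positivity)]
    exact setIntegral_mono_set (integrable_exp_neg_mul_sq hc).integrableOn
      (Filter.Eventually.of_forall fun x => (Real.exp_pos _).le)
      (Filter.Eventually.of_forall fun x hx => hx.1)
  have h4 : ∑ i ∈ Finset.range n, Real.exp (-c * ((i + 1 : ℕ) : ℝ) ^ 2) ≤
      Real.sqrt (Real.pi / c) / 2 := by
    refine le_trans (le_of_eq ?_) (h2.trans h3)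
    refine Finset.sum_congr rfl fun i _ => ?_
    rw [zero_add]
  have h5 : Real.exp (-c * ((0 : ℕ) : ℝ) ^ 2) = 1 := by simp
  rw [h5]
  linarith

theorem sum_gauss_two {c : ℝ} (hc : 0 < c) (S : Finset ℕ) (N j : ℕ)
    (hS : ∀ k ∈ S, k < N) (hj : j < N) :
    ∑ k ∈ S, Real.exp (-c * ((j : ℝ) - k) ^ 2) ≤ 2 + Real.sqrt (Real.pi / c) := by
  have h1 : ∑ k ∈ S.filter (fun k => k ≤ j), Real.exp (-c * ((j : ℝ) - k) ^ 2) ≤
      1 + Real.sqrt (Real.pi / c) / 2 := by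
    refine le_trans ?_ (sum_gauss hc N)
    have h2 : ∑ k ∈ S.filter (fun k => k ≤ j), Real.exp (-c * ((j : ℝ) - k) ^ 2) =
        ∑ i ∈ (S.filter (fun k => k ≤ j)).image (fun k => j - k), Real.exp (-c * (i : ℝ) ^ 2) := by
      rw [Finset.sum_image]
      · refine Finset.sum_congr rfl fun k hk => ?_
        rw [Nat.cast_sub (Finset.mem_filter.1 hk).2]
      · intro a ha b hb hab
        have h3 := (Finset.mem_filter.1 ha).2
        have h4 := (Finset.mem_filter.1 hb).2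
        simp only at hab
        omega
    rw [h2]
    refine Finset.sum_le_sum_of_subset_of_nonneg ?_ fun _ _ _ => (Real.exp_pos _).le
    intro i hi
    obtain ⟨k, hk, rfl⟩ := Finset.mem_image.1 hi
    rw [Finset.mem_range]
    omega
  have h2 : ∑ k ∈ S.filter (fun k => ¬ k ≤ j), Real.exp (-c * ((j : ℝ) - k) ^ 2) ≤
      1 + Real.sqrt (Real.pi / c) / 2 := by
    refine le_trans ?_ (sum_gauss hc N)
    have h2 : ∑ k ∈ S.filter (fun k => ¬ k ≤ j), Real.exp (-c * ((j : ℝ) - k) ^ 2) =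
        ∑ i ∈ (S.filter (fun k => ¬ k ≤ j)).image (fun k => k - j),
          Real.exp (-c * (i : ℝ) ^ 2) := by
      rw [Finset.sum_image]
      · refine Finset.sum_congr rfl fun k hk => ?_
        have h3 := (Finset.mem_filter.1 hk).2
        rw [Nat.cast_sub (by omega)]
        congr 1
        ring
      · intro a ha b hb hab
        have h3 := (Finset.mem_filter.1 ha).2
        have h4 := (Finset.mem_filter.1 hb).2
        simp only at hab
        omega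
    rw [h2]
    refine Finset.sum_le_sum_of_subset_of_nonneg ?_ fun _ _ _ => (Real.exp_pos _).le
    intro i hi
    obtain ⟨k, hk, rfl⟩ := Finset.mem_image.1 hi
    have h3 := hS k (Finset.mem_filter.1 hk).1
    rw [Finset.mem_range]
    omega
  rw [← Finset.sum_filter_add_sum_filter_not S (fun k => k ≤ j)]
  linarith

theorem log_sep {N j k : ℕ} (hj : 1 ≤ j) (hk : 1 ≤ k) (hjN : j ≤ N) (hkN : k ≤ N) :
    ((j : ℝ) - k) ^ 2 / (N : ℝ) ^ 2 ≤ (Real.log j - Real.log k) ^ 2 := by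
  have hj0 : (0 : ℝ) < j := by exact_mod_cast hj
  have hk0 : (0 : ℝ) < k := by exact_mod_cast hk
  have hN0 : (0 : ℝ) < N := lt_of_lt_of_le hj0 (by exact_mod_cast hjN)
  have hjN' : (j : ℝ) ≤ N := by exact_mod_cast hjN
  have hkN' : (k : ℝ) ≤ N := by exact_mod_cast hkN
  have key : ∀ a b : ℝ, 0 < a → a ≤ b → b ≤ N → (b - a) / N ≤ Real.log b - Real.log a := by
    intro a b ha hab hb
    have hb0 : 0 < b := ha.trans_le hab
    have h1 := Real.one_sub_inv_le_log_of_pos (div_pos hb0 ha)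
    rw [Real.log_div hb0.ne' ha.ne', inv_div] at h1
    refine le_trans ?_ h1
    have h2 : 1 - a / b = (b - a) / b := by field_simp
    rw [h2]
    exact div_le_div_of_nonneg_left (by linarith) hb0 hb
  rw [← div_pow]
  rcases le_total (j : ℝ) k with h | h
  · have h1 := key j k hj0 h hkN'
    have h2 : 0 ≤ ((k : ℝ) - j) / N := div_nonneg (by linarith) hN0.le
    have h3 := pow_le_pow_left₀ h2 h1 2
    calc (((j : ℝ) - k) / N) ^ 2 = (((k : ℝ) - j) / N) ^ 2 := by ring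
      _ ≤ _ := h3
      _ = _ := by ring
  · have h1 := key k j hk0 h hjN'
    have h2 : 0 ≤ ((j : ℝ) - k) / N := div_nonneg (by linarith) hN0.le
    exact pow_le_pow_left₀ h2 h1 2

/-! ### The mean value theorem -/

theorem sum_sym {S : Finset ℕ} (γ : ℕ → ℝ) (w : ℕ → ℕ → ℝ) (hw : ∀ j k, 0 ≤ w j k)
    (hsym : ∀ j k, w j k = w k j) {K : ℝ} (hK : ∀ j ∈ S, ∑ k ∈ S, w j k ≤ K) :
    ∑ j ∈ S, ∑ k ∈ S, γ j * γ k * w j k ≤ K * ∑ j ∈ S, γ j ^ 2 := by
  have h1 : ∑ j ∈ S, ∑ k ∈ S, γ j * γ k * w j k ≤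
      ∑ j ∈ S, ∑ k ∈ S, (γ j ^ 2 * w j k / 2 + γ k ^ 2 * w j k / 2) := by
    refine Finset.sum_le_sum fun j _ => Finset.sum_le_sum fun k _ => ?_
    have h2 : γ j * γ k ≤ (γ j ^ 2 + γ k ^ 2) / 2 := by nlinarith [sq_nonneg (γ j - γ k)]
    have h3 := mul_le_mul_of_nonneg_right h2 (hw j k)
    linarith
  refine h1.trans ?_
  have h2 : ∑ j ∈ S, ∑ k ∈ S, γ k ^ 2 * w j k / 2 = ∑ j ∈ S, ∑ k ∈ S, γ j ^ 2 * w j k / 2 := by
    rw [Finset.sum_comm]
    refine Finset.sum_congr rfl fun j _ => Finset.sum_congr rfl fun k _ => ?_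
    rw [hsym k j]
  simp only [Finset.sum_add_distrib]
  rw [h2, ← two_mul, Finset.mul_sum, Finset.mul_sum]
  refine Finset.sum_le_sum fun j hj => ?_
  have h3 : 2 * ∑ k ∈ S, γ j ^ 2 * w j k / 2 = γ j ^ 2 * ∑ k ∈ S, w j k := by
    rw [Finset.mul_sum, Finset.mul_sum]
    exact Finset.sum_congr rfl fun k _ => by ring
  rw [h3, mul_comm K]
  exact mul_le_mul_of_nonneg_left (hK j hj) (sq_nonneg _)

theorem integrable_aux {ι : Type*} (s : Finset ι) (γ lam : ι → ℝ) {T : ℝ} (hT : 0 < T) :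
    Integrable (fun x : ℝ => ‖∑ j ∈ s, (γ j : ℂ) * cexp (I * x * lam j)‖ ^ 2 *
      Real.exp (-x ^ 2 / T ^ 2)) := by
  have h1 : Integrable (fun x : ℝ => Real.exp (-x ^ 2 / T ^ 2)) := by
    have h2 := integrable_exp_neg_mul_sq (b := (T ^ 2)⁻¹) (by positivity)
    refine h2.congr (Filter.Eventually.of_forall fun x => ?_)
    simp only
    congr 1
    field_simp
  refine h1.bdd_mul (c := (∑ j ∈ s, |γ j|) ^ 2) ?_ (Filter.Eventually.of_forall fun x => ?_)
  · exact Continuous.aestronglyMeasurable (by fun_prop)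
  · rw [norm_pow, norm_norm]
    refine pow_le_pow_left₀ (norm_nonneg _) ?_ 2
    refine (norm_sum_le _ _).trans (Finset.sum_le_sum fun j _ => ?_)
    rw [norm_mul, Complex.norm_real, Real.norm_eq_abs]
    have h3 : ‖cexp (I * x * lam j)‖ = 1 := by
      have h4 : I * (x : ℂ) * (lam j : ℂ) = ((x * lam j : ℝ) : ℂ) * I := by push_cast; ring
      rw [h4, Complex.norm_exp_ofReal_mul_I]
    rw [h3, mul_one]

theorem mean_le {N : ℕ} (S : Finset ℕ) (hS : ∀ k ∈ S, 1 ≤ k ∧ k < N) (γ : ℕ → ℝ) {X : ℝ}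
    (hX : 1 ≤ X) :
    (∫ x in (-X)..X, ‖∑ k ∈ S, (γ k : ℂ) * cexp (I * x * ((-Real.log k : ℝ) : ℂ))‖ ^ 2) ≤
      Real.exp 1 * (Real.sqrt Real.pi * (2 + 2 * Real.sqrt Real.pi)) * (X + N) *
        ∑ k ∈ S, γ k ^ 2 := by
  have hX0 : 0 < X := by linarith
  rcases S.eq_empty_or_nonempty with rfl | ⟨k₀, hk₀⟩
  · simp
  have hN : 0 < N := by have := hS k₀ hk₀; omega
  have hN0 : (0 : ℝ) < N := by exact_mod_cast hN
  have h0 := Pool.Agent.Helper242.KK.mean_square S γ (fun k => -Real.log k) hX0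
  have h1 : (∫ x in (-X)..X, ‖∑ k ∈ S, (γ k : ℂ) * cexp (I * x * ((-Real.log k : ℝ) : ℂ))‖ ^ 2) ≤
      ∫ x : ℝ, Real.exp 1 * (‖∑ k ∈ S, (γ k : ℂ) * cexp (I * x * ((-Real.log k : ℝ) : ℂ))‖ ^ 2 *
        Real.exp (-x ^ 2 / X ^ 2)) := by
    have hint := (integrable_aux S γ (fun k => -Real.log k) hX0).const_mul (Real.exp 1)
    rw [intervalIntegral.integral_of_le (by linarith)]
    refine le_trans ?_ (setIntegral_le_integral (s := Set.Ioc (-X) X) hint
      (Filter.Eventually.of_forall fun x => by positivity))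
    refine setIntegral_mono_on ?_ hint.integrableOn measurableSet_Ioc fun x hx => ?_
    · exact (Continuous.integrableOn_Icc (by fun_prop)).mono_set Set.Ioc_subset_Icc_self
    · have h2 : 1 ≤ Real.exp 1 * Real.exp (-x ^ 2 / X ^ 2) := by
        rw [← Real.exp_add]
        apply Real.one_le_exp
        have h3 : x ^ 2 ≤ X ^ 2 := by
          have := hx.1
          have := hx.2
          nlinarith
        have h4 : x ^ 2 / X ^ 2 ≤ 1 := (div_le_one (by positivity)).2 h3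
        have h5 : -x ^ 2 / X ^ 2 = -(x ^ 2 / X ^ 2) := by ring
        rw [h5]
        linarith
      have h6 : 0 ≤ ‖∑ k ∈ S, (γ k : ℂ) * cexp (I * x * ((-Real.log k : ℝ) : ℂ))‖ ^ 2 := by
        positivity
      nlinarith
  rw [integral_const_mul, h0] at h1
  refine h1.trans ?_
  have hc : 0 < X ^ 2 / (4 * (N : ℝ) ^ 2) := by positivity
  have h2 : ∑ j ∈ S, ∑ k ∈ S, γ j * γ k *
      Real.exp (-X ^ 2 * (-Real.log j - -Real.log k) ^ 2 / 4) ≤
      (2 + Real.sqrt (Real.pi / (X ^ 2 / (4 * (N : ℝ) ^ 2)))) * ∑ j ∈ S, γ j ^ 2 := by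
    refine sum_sym γ (fun j k => Real.exp (-X ^ 2 * (-Real.log j - -Real.log k) ^ 2 / 4))
      (fun j k => (Real.exp_pos _).le) (fun j k => ?_) fun j hj => ?_
    · congr 1
      ring
    · refine le_trans (Finset.sum_le_sum fun k hk => ?_) (sum_gauss_two hc S N j
        (fun k hk => (hS k hk).2) (hS j hj).2)
      apply Real.exp_le_exp.2
      have h3 := log_sep (hS j hj).1 (hS k hk).1 (hS j hj).2.le (hS k hk).2.le
      have h4 : (-Real.log j - -Real.log k) ^ 2 = (Real.log j - Real.log k) ^ 2 := by ring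
      rw [h4]
      have h5 := mul_le_mul_of_nonneg_left h3 (show (0 : ℝ) ≤ X ^ 2 / 4 by positivity)
      have h6 : X ^ 2 / (4 * (N : ℝ) ^ 2) * ((j : ℝ) - k) ^ 2 =
          X ^ 2 / 4 * (((j : ℝ) - k) ^ 2 / (N : ℝ) ^ 2) := by
        field_simp
      linarith
  have h3 : Real.sqrt (Real.pi / (X ^ 2 / (4 * (N : ℝ) ^ 2))) =
      2 * N * Real.sqrt Real.pi / X := by
    have h4 : Real.pi / (X ^ 2 / (4 * (N : ℝ) ^ 2)) = Real.pi * (2 * N / X) ^ 2 := by
      field_simp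
      ring
    rw [h4, Real.sqrt_mul Real.pi_pos.le, Real.sqrt_sq (by positivity)]
    ring
  rw [h3] at h2
  have hG : 0 ≤ ∑ j ∈ S, γ j ^ 2 := Finset.sum_nonneg fun _ _ => sq_nonneg _
  have hsp : 0 ≤ Real.sqrt Real.pi := Real.sqrt_nonneg _
  have h5 : X * (2 + 2 * N * Real.sqrt Real.pi / X) ≤ (2 + 2 * Real.sqrt Real.pi) * (X + N) := by
    have h6 : X * (2 + 2 * N * Real.sqrt Real.pi / X) = 2 * X + 2 * N * Real.sqrt Real.pi := by
      field_simp
    rw [h6]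
    nlinarith [mul_nonneg hsp hX0.le]
  calc Real.exp 1 * (Real.sqrt Real.pi * X * ∑ j ∈ S, ∑ k ∈ S, γ j * γ k *
      Real.exp (-X ^ 2 * (-Real.log j - -Real.log k) ^ 2 / 4))
      ≤ Real.exp 1 * (Real.sqrt Real.pi * X * ((2 + 2 * N * Real.sqrt Real.pi / X) *
        ∑ j ∈ S, γ j ^ 2)) := by gcongr
    _ = Real.exp 1 * (Real.sqrt Real.pi * (X * (2 + 2 * N * Real.sqrt Real.pi / X)) *
        ∑ j ∈ S, γ j ^ 2) := by ring
    _ ≤ Real.exp 1 * (Real.sqrt Real.pi * ((2 + 2 * Real.sqrt Real.pi) * (X + N)) *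
        ∑ j ∈ S, γ j ^ 2) := by gcongr
    _ = _ := by ring

/-! ### The multiplicative energy of `[M, 2M)` -/

/-- The number of factorizations `k = m n` with `m`, `n` in `[M, 2M)`. -/
def dd (M k : ℕ) : ℕ :=
  ((Finset.Ico M (2 * M) ×ˢ Finset.Ico M (2 * M)).filter (fun p => p.1 * p.2 = k)).card

theorem mem_range_prod {M : ℕ} {p : ℕ × ℕ}
    (hp : p ∈ Finset.Ico M (2 * M) ×ˢ Finset.Ico M (2 * M)) :
    p.1 * p.2 ∈ Finset.Ico (M ^ 2) (4 * M ^ 2) := by
  rw [Finset.mem_product, Finset.mem_Ico, Finset.mem_Ico] at hp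
  rw [Finset.mem_Ico]
  constructor
  · rw [sq]
    exact Nat.mul_le_mul hp.1.1 hp.2.1
  · have h1 : p.1 * p.2 < 2 * M * (2 * M) := Nat.mul_lt_mul'' hp.1.2 hp.2.2
    have h2 : 2 * M * (2 * M) = 4 * M ^ 2 := by ring
    omega

theorem pair_count {M a c : ℕ} (ha : 1 ≤ a) (hc : M ≤ c) (hM : 1 ≤ M) :
    ((Finset.Ico M (2 * M) ×ˢ Finset.Ico M (2 * M)).filter
      (fun q => a * q.1 = c * q.2)).card ≤ 2 * Nat.gcd a c := by
  have hc1 : 1 ≤ c := hM.trans hc
  obtain ⟨g, hg⟩ : ∃ g, g = Nat.gcd a c := ⟨_, rfl⟩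
  have hgpos : 0 < g := by rw [hg]; exact Nat.gcd_pos_of_pos_left _ ha
  obtain ⟨a', ha'⟩ : g ∣ a := by rw [hg]; exact Nat.gcd_dvd_left _ _
  obtain ⟨c', hc'⟩ : g ∣ c := by rw [hg]; exact Nat.gcd_dvd_right _ _
  have hcop : Nat.Coprime a' c' := by
    have h1 := Nat.coprime_div_gcd_div_gcd (m := a) (n := c) (by rw [← hg]; exact hgpos)
    rw [← hg] at h1
    rwa [ha', hc', Nat.mul_div_cancel_left _ hgpos, Nat.mul_div_cancel_left _ hgpos] at h1
  have hc'pos : 0 < c' := Nat.pos_of_ne_zero fun h => by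
    rw [h, mul_zero] at hc'
    omega
  have hred : ∀ q : ℕ × ℕ, a * q.1 = c * q.2 → c' ∣ q.1 ∧ a' * q.1 = c' * q.2 := by
    intro q hq
    have h1 : a' * q.1 = c' * q.2 := by
      apply Nat.eq_of_mul_eq_mul_left hgpos
      rw [← mul_assoc, ← mul_assoc, ← ha', ← hc', hq]
    refine ⟨?_, h1⟩
    exact hcop.symm.dvd_of_dvd_mul_left ⟨q.2, h1⟩
  rw [← hg]
  calc _ ≤ (Finset.range (2 * g)).card := by
        refine Finset.card_le_card_of_injOn (fun q => q.1 / c') ?_ ?_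
        · intro q hq
          have hq1 := (Finset.mem_filter.1 hq).1
          have hq2 := (Finset.mem_filter.1 hq).2
          rw [Finset.mem_product, Finset.mem_Ico, Finset.mem_Ico] at hq1
          simp only [Finset.coe_range, Set.mem_Iio]
          rw [Nat.div_lt_iff_lt_mul hc'pos]
          calc q.1 < 2 * M := hq1.1.2
            _ ≤ 2 * c := by omega
            _ = 2 * g * c' := by rw [hc']; ring
        · intro p hp q hq hpq
          have hp2 := hred p (Finset.mem_filter.1 hp).2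
          have hq2 := hred q (Finset.mem_filter.1 hq).2
          simp only at hpq
          have h1 : p.1 = q.1 := by
            rw [← Nat.div_mul_cancel hp2.1, ← Nat.div_mul_cancel hq2.1, hpq]
          have h2 : c' * p.2 = c' * q.2 := by rw [← hp2.2, ← hq2.2, h1]
          exact Prod.ext h1 (Nat.eq_of_mul_eq_mul_left hc'pos h2)
    _ = 2 * g := Finset.card_range _

theorem sum_gcd {M : ℕ} (hM : 1 ≤ M) :
    ∑ a ∈ Finset.Ico M (2 * M), ∑ c ∈ Finset.Ico M (2 * M), (Nat.gcd a c : ℝ) ≤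
      4 * (M : ℝ) ^ 2 * (1 + Real.log (2 * M)) := by
  have h1 : ∀ a ∈ Finset.Ico M (2 * M), ∀ c ∈ Finset.Ico M (2 * M),
      (Nat.gcd a c : ℝ) ≤ ∑ g ∈ Finset.range (2 * M),
        (if g + 1 ∣ a then ((g + 1 : ℕ) : ℝ) else 0) * (if g + 1 ∣ c then 1 else 0) := by
    intro a ha c _
    rw [Finset.mem_Ico] at ha
    have hpos : 0 < Nat.gcd a c := Nat.gcd_pos_of_pos_left _ (by omega)
    have hle : Nat.gcd a c ≤ a := Nat.gcd_le_left _ (by omega)
    have hmem : Nat.gcd a c - 1 ∈ Finset.range (2 * M) := by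
      rw [Finset.mem_range]
      omega
    refine le_trans (le_of_eq ?_) (Finset.single_le_sum (f := fun g =>
      (if g + 1 ∣ a then ((g + 1 : ℕ) : ℝ) else 0) * (if g + 1 ∣ c then (1 : ℝ) else 0))
      (fun g _ => by positivity) hmem)
    have h2 : Nat.gcd a c - 1 + 1 = Nat.gcd a c := by omega
    rw [h2, if_pos (Nat.gcd_dvd_left a c), if_pos (Nat.gcd_dvd_right a c), mul_one]
  have hcount : ∀ g ∈ Finset.range (2 * M), ∑ a ∈ Finset.Ico M (2 * M),
      (if g + 1 ∣ a then (1 : ℝ) else 0) ≤ 2 * M / ((g + 1 : ℕ) : ℝ) := by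
    intro g _
    rw [Finset.sum_boole]
    have h2 : ((Finset.Ico M (2 * M)).filter (fun a => g + 1 ∣ a)).card ≤ (2 * M) / (g + 1) := by
      rw [← Nat.Ioc_filter_dvd_card_eq_div]
      refine Finset.card_le_card (Finset.filter_subset_filter _ fun a ha => ?_)
      rw [Finset.mem_Ico] at ha
      rw [Finset.mem_Ioc]
      omega
    calc ((((Finset.Ico M (2 * M)).filter (fun a => g + 1 ∣ a)).card : ℕ) : ℝ)
        ≤ (((2 * M) / (g + 1) : ℕ) : ℝ) := by exact_mod_cast h2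
      _ ≤ ((2 * M : ℕ) : ℝ) / ((g + 1 : ℕ) : ℝ) := Nat.cast_div_le
      _ = _ := by push_cast; ring
  calc ∑ a ∈ Finset.Ico M (2 * M), ∑ c ∈ Finset.Ico M (2 * M), (Nat.gcd a c : ℝ)
      ≤ ∑ a ∈ Finset.Ico M (2 * M), ∑ c ∈ Finset.Ico M (2 * M), ∑ g ∈ Finset.range (2 * M),
        (if g + 1 ∣ a then ((g + 1 : ℕ) : ℝ) else 0) * (if g + 1 ∣ c then 1 else 0) :=
        Finset.sum_le_sum fun a ha => Finset.sum_le_sum fun c hc => h1 a ha c hc
    _ = ∑ g ∈ Finset.range (2 * M), ((g + 1 : ℕ) : ℝ) * (∑ a ∈ Finset.Ico M (2 * M),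
        (if g + 1 ∣ a then (1 : ℝ) else 0)) ^ 2 := by
        rw [Finset.sum_congr rfl fun a _ => Finset.sum_comm, Finset.sum_comm]
        refine Finset.sum_congr rfl fun g _ => ?_
        rw [sq, Finset.sum_mul_sum, Finset.mul_sum]
        refine Finset.sum_congr rfl fun a _ => ?_
        rw [Finset.mul_sum]
        refine Finset.sum_congr rfl fun c _ => ?_
        split_ifs <;> simp
    _ ≤ ∑ g ∈ Finset.range (2 * M), ((g + 1 : ℕ) : ℝ) * (2 * M / ((g + 1 : ℕ) : ℝ)) ^ 2 := by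
        refine Finset.sum_le_sum fun g hg => ?_
        have h3 : 0 ≤ ∑ a ∈ Finset.Ico M (2 * M), (if g + 1 ∣ a then (1 : ℝ) else 0) :=
          Finset.sum_nonneg fun a _ => by positivity
        have h4 := pow_le_pow_left₀ h3 (hcount g hg) 2
        exact mul_le_mul_of_nonneg_left h4 (by positivity)
    _ = 4 * (M : ℝ) ^ 2 * ((harmonic (2 * M) : ℚ) : ℝ) := by
        rw [harmonic, Rat.cast_sum, Finset.mul_sum]
        refine Finset.sum_congr rfl fun g _ => ?_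
        have h3 : ((g + 1 : ℕ) : ℝ) ≠ 0 := by positivity
        push_cast at h3 ⊢
        field_simp
        ring
    _ ≤ 4 * (M : ℝ) ^ 2 * (1 + Real.log (2 * M)) := by
        have h3 := harmonic_le_one_add_log (2 * M)
        rw [Nat.cast_mul, Nat.cast_ofNat] at h3
        exact mul_le_mul_of_nonneg_left h3 (by positivity)

theorem sum_dd_sq {M : ℕ} (hM : 1 ≤ M) :
    ∑ k ∈ Finset.Ico (M ^ 2) (4 * M ^ 2), (dd M k : ℝ) ^ 2 ≤
      16 * (M : ℝ) ^ 2 * (1 + Real.log M) := by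
  classical
  set J := Finset.Ico M (2 * M) with hJ
  have h1 : ∑ k ∈ Finset.Ico (M ^ 2) (4 * M ^ 2), (dd M k) ^ 2 =
      ∑ p ∈ J ×ˢ J, dd M (p.1 * p.2) := by
    rw [← Finset.sum_fiberwise_of_maps_to (s := J ×ˢ J) (t := Finset.Ico (M ^ 2) (4 * M ^ 2))
      (g := fun p => p.1 * p.2) (fun p hp => mem_range_prod hp)]
    refine Finset.sum_congr rfl fun k _ => ?_
    rw [Finset.sum_congr rfl (g := fun _ => dd M k)]
    · rw [Finset.sum_const, smul_eq_mul, sq]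
      rfl
    · intro p hp
      rw [(Finset.mem_filter.1 hp).2]
  have h2 : ∑ p ∈ J ×ˢ J, dd M (p.1 * p.2) = ∑ a ∈ J, ∑ c ∈ J,
      ((J ×ˢ J).filter (fun q => a * q.1 = c * q.2)).card := by
    rw [Finset.sum_product]
    refine Finset.sum_congr rfl fun a _ => ?_
    simp only [dd, Finset.card_filter, ← hJ, Finset.sum_product]
    rw [Finset.sum_comm]
    refine Finset.sum_congr rfl fun c _ => Finset.sum_congr rfl fun b _ =>
      Finset.sum_congr rfl fun d _ => ?_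
    simp only [eq_comm]
  have h3 : (∑ a ∈ J, ∑ c ∈ J, (((J ×ˢ J).filter (fun q => a * q.1 = c * q.2)).card : ℝ)) ≤
      ∑ a ∈ J, ∑ c ∈ J, 2 * (Nat.gcd a c : ℝ) := by
    refine Finset.sum_le_sum fun a ha => Finset.sum_le_sum fun c hc => ?_
    rw [hJ, Finset.mem_Ico] at ha hc
    have h4 := pair_count (M := M) (a := a) (c := c) (by omega) hc.1 hM
    rw [← hJ] at h4
    exact_mod_cast h4
  have h4 : ∑ k ∈ Finset.Ico (M ^ 2) (4 * M ^ 2), (dd M k : ℝ) ^ 2 =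
      ∑ a ∈ J, ∑ c ∈ J, (((J ×ˢ J).filter (fun q => a * q.1 = c * q.2)).card : ℝ) := by
    exact_mod_cast h1.trans h2
  rw [h4]
  refine h3.trans ?_
  have h5 := sum_gcd hM
  have h6 : ∑ a ∈ J, ∑ c ∈ J, 2 * (Nat.gcd a c : ℝ) = 2 * ∑ a ∈ J, ∑ c ∈ J, (Nat.gcd a c : ℝ) := by
    rw [Finset.mul_sum]
    exact Finset.sum_congr rfl fun a _ => by rw [Finset.mul_sum]
  rw [h6]
  have hM0 : (1 : ℝ) ≤ M := by exact_mod_cast hM
  have h7 : Real.log (2 * M) = Real.log 2 + Real.log M :=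
    Real.log_mul (by norm_num) (by positivity)
  have h8 : Real.log 2 ≤ 1 := by
    have := Real.log_le_sub_one_of_pos (show (0 : ℝ) < 2 by norm_num)
    linarith
  have h9 : 0 ≤ Real.log M := Real.log_nonneg hM0
  rw [h7] at h5
  nlinarith [mul_nonneg (sq_nonneg (M : ℝ)) h9, sq_nonneg (M : ℝ)]

/-! ### The fourth moment -/

theorem DD_sq {M : ℕ} (hM : 1 ≤ M) (s : ℂ) :
    DD M s ^ 2 = ∑ k ∈ Finset.Ico (M ^ 2) (4 * M ^ 2),
      (dd M k : ℂ) * cexp (-(s * ((Real.log k : ℝ) : ℂ))) := by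
  rw [sq, DD, Finset.sum_mul_sum, ← Finset.sum_product']
  rw [← Finset.sum_fiberwise_of_maps_to (s := Finset.Ico M (2 * M) ×ˢ Finset.Ico M (2 * M))
    (t := Finset.Ico (M ^ 2) (4 * M ^ 2)) (g := fun p => p.1 * p.2)
    (fun p hp => mem_range_prod hp)]
  refine Finset.sum_congr rfl fun k _ => ?_
  rw [Finset.sum_congr rfl (g := fun _ => cexp (-(s * ((Real.log k : ℝ) : ℂ))))]
  · rw [Finset.sum_const, nsmul_eq_mul]
    rfl
  · intro p hp
    have hp1 := (Finset.mem_filter.1 hp).1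
    have hp2 := (Finset.mem_filter.1 hp).2
    rw [Finset.mem_product, Finset.mem_Ico, Finset.mem_Ico] at hp1
    have h1 : ((p.1 : ℕ) : ℝ) ≠ 0 := Nat.cast_ne_zero.2 (by omega)
    have h2 : ((p.2 : ℕ) : ℝ) ≠ 0 := Nat.cast_ne_zero.2 (by omega)
    rw [← Complex.exp_add, ← hp2, Nat.cast_mul, Real.log_mul h1 h2]
    congr 1
    push_cast
    ring

theorem moment {M : ℕ} (hM : 1 ≤ M) (σ : ℝ) {X : ℝ} (hX : 1 ≤ X) {B : ℝ}
    (hB : ∀ k ∈ Finset.Ico (M ^ 2) (4 * M ^ 2), Real.exp (-σ * Real.log k) ^ 2 ≤ B) :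
    (∫ x in (-X)..X, ‖DD M (σ + I * x)‖ ^ 4) ≤
      Real.exp 1 * (Real.sqrt Real.pi * (2 + 2 * Real.sqrt Real.pi)) * (X + 4 * (M : ℝ) ^ 2) *
        (B * (16 * (M : ℝ) ^ 2 * (1 + Real.log M))) := by
  have h1 : ∀ x : ℝ, ‖DD M (σ + I * x)‖ ^ 4 =
      ‖∑ k ∈ Finset.Ico (M ^ 2) (4 * M ^ 2),
        ((dd M k * Real.exp (-σ * Real.log k) : ℝ) : ℂ) *
          cexp (I * x * ((-Real.log k : ℝ) : ℂ))‖ ^ 2 := by
    intro x
    have h2 : ‖DD M (σ + I * x)‖ ^ 4 = ‖DD M (σ + I * x) ^ 2‖ ^ 2 := by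
      rw [norm_pow, ← pow_mul]
    rw [h2, DD_sq hM]
    congr 2
    refine Finset.sum_congr rfl fun k _ => ?_
    push_cast
    rw [mul_assoc, ← Complex.exp_add]
    congr 2
    ring
  simp_rw [h1]
  have hS : ∀ k ∈ Finset.Ico (M ^ 2) (4 * M ^ 2), 1 ≤ k ∧ k < 4 * M ^ 2 := by
    intro k hk
    rw [Finset.mem_Ico] at hk
    have : 1 ≤ M ^ 2 := Nat.one_le_pow _ _ hM
    omega
  have h3 := mean_le (N := 4 * M ^ 2) (Finset.Ico (M ^ 2) (4 * M ^ 2)) hS
    (fun k => dd M k * Real.exp (-σ * Real.log k)) hX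
  refine h3.trans ?_
  have h4 : ∑ k ∈ Finset.Ico (M ^ 2) (4 * M ^ 2),
      ((dd M k : ℝ) * Real.exp (-σ * Real.log k)) ^ 2 ≤
      B * (16 * (M : ℝ) ^ 2 * (1 + Real.log M)) := by
    have hB0 : 0 ≤ B := by
      refine le_trans (sq_nonneg _) (hB (M ^ 2) ?_)
      rw [Finset.mem_Ico]
      have : 1 ≤ M ^ 2 := Nat.one_le_pow _ _ hM
      omega
    refine le_trans ?_ (mul_le_mul_of_nonneg_left (sum_dd_sq hM) hB0)
    rw [Finset.mul_sum]
    refine Finset.sum_le_sum fun k hk => ?_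
    rw [mul_pow, mul_comm]
    exact mul_le_mul_of_nonneg_right (hB k hk) (sq_nonneg _)
  have h5 : ((4 * M ^ 2 : ℕ) : ℝ) = 4 * (M : ℝ) ^ 2 := by push_cast; ring
  rw [h5]
  have hsp : 0 ≤ Real.sqrt Real.pi := Real.sqrt_nonneg _
  gcongr

theorem t_M4 : S_M4 := by
  obtain ⟨C₀, hC₀⟩ : ∃ C₀, C₀ = Real.exp 1 * (Real.sqrt Real.pi * (2 + 2 * Real.sqrt Real.pi)) :=
    ⟨_, rfl⟩
  have hsp : 0 < Real.sqrt Real.pi := Real.sqrt_pos.2 Real.pi_pos
  have hC₀pos : 0 < C₀ := by rw [hC₀]; positivity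
  refine ⟨256 * C₀, by positivity, fun M X hM hX => ?_⟩
  have hM0 : (1 : ℝ) ≤ M := by exact_mod_cast hM
  have hMpos : (0 : ℝ) < M := by linarith
  have hlog : 0 ≤ Real.log M := Real.log_nonneg hM0
  have hX4 : X + 4 * (M : ℝ) ^ 2 ≤ 4 * (X + (M : ℝ) ^ 2) := by nlinarith
  have hkpos : ∀ k ∈ Finset.Ico (M ^ 2) (4 * M ^ 2), (0 : ℝ) < k := by
    intro k hk
    rw [Finset.mem_Ico] at hk
    have : 1 ≤ M ^ 2 := Nat.one_le_pow _ _ hM
    exact_mod_cast (show 0 < k by omega)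
  constructor
  · have h1 := moment hM (3 / 2) hX (B := ((M : ℝ) ^ 6)⁻¹) (by
      intro k hk
      have h2 := hkpos k hk
      have h3 : (M : ℝ) ^ 2 ≤ k := by
        rw [Finset.mem_Ico] at hk
        exact_mod_cast hk.1
      rw [← Real.exp_nat_mul]
      have h4 : ((2 : ℕ) : ℝ) * (-(3 / 2) * Real.log k) = -Real.log ((k : ℝ) ^ 3) := by
        rw [Real.log_pow]
        push_cast
        ring
      rw [h4, Real.exp_neg, Real.exp_log (by positivity)]
      apply inv_anti₀ (by positivity)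
      calc (M : ℝ) ^ 6 = ((M : ℝ) ^ 2) ^ 3 := by ring
        _ ≤ (k : ℝ) ^ 3 := pow_le_pow_left₀ (by positivity) h3 3)
    rw [← hC₀] at h1
    have h2 : (((3 / 2 : ℝ) : ℝ) : ℂ) = 3 / 2 := by push_cast; ring
    rw [h2] at h1
    refine h1.trans ?_
    have h3 : C₀ * (X + 4 * (M : ℝ) ^ 2) * (((M : ℝ) ^ 6)⁻¹ *
        (16 * (M : ℝ) ^ 2 * (1 + Real.log M))) =
        16 * C₀ * (X + 4 * (M : ℝ) ^ 2) * ((M : ℝ) ^ 4)⁻¹ * (1 + Real.log M) := by
      field_simp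
    rw [h3]
    have h4 : 16 * C₀ * (X + 4 * (M : ℝ) ^ 2) ≤ 256 * C₀ * (X + (M : ℝ) ^ 2) := by
      nlinarith [mul_pos hC₀pos hMpos, mul_le_mul_of_nonneg_left hX4 hC₀pos.le,
        mul_nonneg hC₀pos.le (sq_nonneg (M : ℝ)), mul_nonneg hC₀pos.le (by linarith : 0 ≤ X)]
    gcongr
  · have h1 := moment hM (-(1 / 2)) hX (B := 4 * (M : ℝ) ^ 2) (by
      intro k hk
      have h2 := hkpos k hk
      have h3 : (k : ℝ) ≤ 4 * (M : ℝ) ^ 2 := by
        rw [Finset.mem_Ico] at hk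
        exact_mod_cast hk.2.le
      rw [← Real.exp_nat_mul]
      have h4 : ((2 : ℕ) : ℝ) * (-(-(1 / 2)) * Real.log k) = Real.log k := by
        push_cast
        ring
      rw [h4, Real.exp_log h2]
      exact h3)
    rw [← hC₀] at h1
    have h2 : (((-(1 / 2) : ℝ) : ℝ) : ℂ) = -(1 / 2) := by push_cast; ring
    rw [h2] at h1
    refine h1.trans ?_
    have h3 : C₀ * (X + 4 * (M : ℝ) ^ 2) * (4 * (M : ℝ) ^ 2 *
        (16 * (M : ℝ) ^ 2 * (1 + Real.log M))) =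
        64 * C₀ * (X + 4 * (M : ℝ) ^ 2) * (M : ℝ) ^ 4 * (1 + Real.log M) := by
      ring
    rw [h3]
    have h4 : 64 * C₀ * (X + 4 * (M : ℝ) ^ 2) ≤ 256 * C₀ * (X + (M : ℝ) ^ 2) := by
      nlinarith [mul_le_mul_of_nonneg_left hX4 hC₀pos.le]
    gcongr

end Pool.Agent.H549.RZ.M4
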